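import Pool.Agent.H43.Orb4

set_option autoImplicit false

namespace Pool.Agent.Results.MP_5a3b5e_co.Torsion
open Pool.Agent.H43.Orb

variable {n : ℕ}

/-- The simplicial `i`-chains of the order complex of the proper part: integer combinations of
strictly increasing lists `x₀ < ... < x_i` of elements of the proper part. -/
noncomputable def chains (p : Nat.Partition n) (i : ℕ) : Submodule ℤ (Ch (Setoid (Fin n))) :=
  Finsupp.supported ℤ ℤ {l | l.length = i + 1 ∧ l.Pairwise (· < ·) ∧ ∀ x ∈ l, x ∈ Proper p}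

/-- The `i`-cycles (for `i = 0` the boundary is the augmentation, so homology is reduced). -/
noncomputable def cycles (p : Nat.Partition n) (i : ℕ) : Submodule ℤ (Ch (Setoid (Fin n))) :=
  chains p i ⊓ LinearMap.ker d

/-- The `i`-boundaries. -/
noncomputable def boundaries (p : Nat.Partition n) (i : ℕ) : Submodule ℤ (Ch (Setoid (Fin n))) :=
  (chains p (i + 1)).map d

/-- Reduced integral simplicial homology of the order complex of the proper part. -/
abbrev Homology (p : Nat.Partition n) (i : ℕ) : Type :=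
  cycles p i ⧸ (boundaries p i).submoduleOf (cycles p i)

theorem result : ∃ (n : ℕ) (p : Nat.Partition n), (∃ a ∈ p.parts, 2 ≤ a) ∧
    ∃ x : Homology p 3, x ≠ 0 ∧ (2 : ℤ) • x = 0 := by
  obtain ⟨z, c, φ, hz, hc, h0, h2, h1, hφ⟩ := main
  refine ⟨8866, pp, ⟨61, by decide +kernel, by norm_num⟩,
    Submodule.Quotient.mk ⟨z, hz, h0⟩, fun h => h1 ?_, ?_⟩
  · rw [Submodule.Quotient.mk_eq_zero] at h
    obtain ⟨w, hw, e⟩ := h
    have e2 : d w = z := e
    rw [← e2]
    refine lin_eq_on (ext φ ∘ₗ d) 0 (fun l hl => ?_) hw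
    simp only [LinearMap.comp_apply, d_sg, LinearMap.zero_apply]
    refine hφ l hl.1 hl.2.2 fun x hx y hy => ?_
    by_cases e : x = y
    · exact Or.inl e.le
    · have hs : l.Pairwise fun a b => a ≤ b ∨ b ≤ a := hl.2.1.imp fun h => Or.inl h.le
      haveI : Std.Symm fun a b : Setoid (Fin 8866) => a ≤ b ∨ b ≤ a := ⟨fun _ _ h => Or.symm h⟩
      exact List.Pairwise.forall_of_forall (R := fun a b : Setoid (Fin 8866) => a ≤ b ∨ b ≤ a)
        (fun _ _ => Or.inl le_rfl) hs hx hy
  · rw [← Submodule.Quotient.mk_smul, Submodule.Quotient.mk_eq_zero]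
    exact ⟨c, hc, h2⟩

end Pool.Agent.Results.MP_5a3b5e_co.Torsion
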